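import Pool.Agent.L5helper20.DG.Zeon

/-!
The permanent as a coefficient of the product of the linear forms of the rows, and the
coefficient of the rows with free choice.
-/

set_option autoImplicit false

namespace Pool.Agent.L5helper20.DG

open Finset MvPolynomial L5helper59.DC

theorem sum_single_eq_iff {α β : Type*} [Fintype α] [Fintype β] [DecidableEq β] (f : α → β) :
    (∑ a, Finsupp.single (f a) 1 : β →₀ ℕ) = ex univ ↔ Function.Bijective f := by
  classical
  have h : ∀ c, (∑ a, Finsupp.single (f a) 1 : β →₀ ℕ) c = (univ.filter fun a => f a = c).card := by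
    intro c
    rw [Finsupp.finsetSum_apply]
    simp [Finsupp.single_apply, Finset.sum_boole]
  constructor
  · intro he
    rw [Function.bijective_iff_existsUnique]
    intro c
    have h1 := h c
    rw [he, ex_apply, if_pos (mem_univ _)] at h1
    obtain ⟨a, ha⟩ := card_eq_one.1 h1.symm
    refine ⟨a, ?_, fun b hb => ?_⟩
    · have : a ∈ univ.filter fun a => f a = c := by rw [ha]; exact mem_singleton_self _
      exact (mem_filter.1 this).2
    · have : b ∈ univ.filter fun a => f a = c := mem_filter.2 ⟨mem_univ _, hb⟩
      rw [ha] at this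
      exact mem_singleton.1 this
  · intro hf
    ext c
    rw [h c, ex_apply, if_pos (mem_univ _), card_eq_one]
    obtain ⟨a, ha, hu⟩ := (Function.bijective_iff_existsUnique f).1 hf c
    refine ⟨a, ?_⟩
    ext b
    rw [mem_filter, mem_singleton]
    exact ⟨fun hb => hu b hb.2, fun hb => ⟨mem_univ _, hb ▸ ha⟩⟩

/-- The permanent is the coefficient of the product of all variables in the product of the
linear forms of the rows. -/
theorem permanent_eq {R : Type*} [CommRing R] {n ρ γ : Type*} [Fintype n] [DecidableEq n]
    [Fintype ρ] [DecidableEq ρ] [Fintype γ] [DecidableEq γ] (N : ρ → γ → R) (e₁ : n ≃ ρ)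
    (e₂ : n ≃ γ) :
    (Matrix.of fun a b => N (e₁ a) (e₂ b)).permanent = coeff (ex univ) (∏ a, lin (N a)) := by
  have h1 : (∏ a, lin (N a)) =
      ∑ f : ρ → γ, monomial (∑ a, Finsupp.single (f a) 1) (∏ a, N a (f a)) := by
    unfold lin
    rw [Finset.prod_univ_sum, Fintype.piFinset_univ]
    refine sum_congr rfl fun f _ => ?_
    rw [monomial_sum_prod]
    refine prod_congr rfl fun a _ => ?_
    rw [X, C_mul_monomial, mul_one]
  rw [h1, coeff_sum]
  simp only [coeff_monomial]
  rw [← sum_filter]
  unfold Matrix.permanent
  refine sum_bij (fun σ _ => fun a => e₂ (σ.symm (e₁.symm a))) ?_ ?_ ?_ ?_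
  · intro σ _
    rw [mem_filter, sum_single_eq_iff]
    exact ⟨mem_univ _, ((e₁.symm.trans σ.symm).trans e₂).bijective⟩
  · intro σ _ τ _ h
    have : σ.symm = τ.symm := by
      ext x
      have := congrFun h (e₁ x)
      simpa using this
    simpa using congrArg Equiv.symm this
  · intro f hf
    rw [mem_filter, sum_single_eq_iff] at hf
    refine ⟨((e₁.trans (Equiv.ofBijective f hf.2)).trans e₂.symm).symm, mem_univ _, ?_⟩
    funext a
    simp
  · intro σ _
    have : ∀ i, (Matrix.of fun a b => N (e₁ a) (e₂ b)) (σ i) i = N (e₁ (σ i)) (e₂ i) := fun _ => rfl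
    simp only [this]
    rw [← Equiv.prod_comp (σ.trans e₁) (fun a => N a (e₂ (σ.symm (e₁.symm a))))]
    refine prod_congr rfl fun i _ => ?_
    simp

/-- Setting the other variables to zero. -/
theorem coeff_killCompl {σ τ R : Type*} [CommRing R] {f : σ → τ} (hf : Function.Injective f)
    (P : MvPolynomial τ R) (m : σ →₀ ℕ) :
    coeff m (killCompl hf P) = coeff (m.mapDomain f) P := by
  classical
  induction P using MvPolynomial.induction_on' with
  | monomial u a =>
    by_cases h : (↑u.support : Set τ) ⊆ Set.range f
    · rw [killCompl_monomial_eq_monomial_comapDomain_of_subset hf a h, coeff_monomial,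
        coeff_monomial]
      congr 1
      rw [eq_iff_iff]
      constructor
      · intro h2
        rw [← h2, Finsupp.mapDomain_comapDomain f hf u h]
      · intro h2
        rw [h2]
        exact Finsupp.comapDomain_mapDomain f hf m
    · rw [killCompl_monomial_eq_zero_of_not_subset hf a h, coeff_zero, coeff_monomial, if_neg]
      intro h2
      apply h
      rw [h2]
      intro x hx
      have := Finsupp.mapDomain_support hx
      obtain ⟨y, _, rfl⟩ := Finset.mem_image.1 this
      exact ⟨y, rfl⟩
  | add p q hp hq => rw [map_add, coeff_add, coeff_add, hp, hq]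

theorem mapDomain_ex {σ τ : Type*} [DecidableEq τ] {f : σ → τ} (hf : Function.Injective f)
    (C : Finset σ) :
    (ex C).mapDomain f = ex (C.image f) := by
  unfold ex
  rw [Finsupp.mapDomain_finsetSum, sum_image (fun x _ y _ h => hf h)]
  refine sum_congr rfl fun j _ => ?_
  rw [Finsupp.mapDomain_single]

end Pool.Agent.L5helper20.DG
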