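import Pool.Agent.L5helper20.PD.Grenet

/-!
# Determinantal representations of the permanent with one generic diagonal symmetry

The permanent `perm_m` of the generic `m × m` matrix `(x_ij)` is multiplied by a scalar under the
substitutions `x_ij ↦ t_i s_j x_ij`.  A determinantal representation `perm_m = det A(x)`, where `A`
is an `n × n` matrix of affine linear forms, *respects* this symmetry if it lifts to a symmetry of
the determinant: `A(t x s) = P A(x) Q` or `A(t x s) = P A(x)ᵀ Q` with scalar matrices `P, Q`.

Theorem: if a representation respects one symmetry `(t, s)` that is generic on a principal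
`R × R` block with `|R| ≥ 3` and has `t_i s_i = 1` for the indices `i` outside `R`, then
`n ≥ 2 ^ |R| - 1`.  For `R` the whole index set the bound is attained, for all diagonal symmetries
at the same time.

No other symmetry is assumed, neither for permutations of rows or columns nor for a group of
diagonal matrices, and no condition is put on the constant term `A(0)`.
-/

namespace Pool.Agent.L5helper20.DG.DiagonalSymmetry

open MvPolynomial

/-- The permanent of the `m × m` matrix of distinct variables. -/
noncomputable def perm (m : ℕ) : MvPolynomial (Fin m × Fin m) ℂ :=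
  (Matrix.of fun i j : Fin m => (X (i, j) : MvPolynomial (Fin m × Fin m) ℂ)).permanent

/-- `A` is a matrix of affine linear forms with determinant `perm_m`. -/
def IsRepresentation {m n : ℕ}
    (A : Matrix (Fin n) (Fin n) (MvPolynomial (Fin m × Fin m) ℂ)) : Prop :=
  (∀ a b, (A a b).totalDegree ≤ 1) ∧ A.det = perm m

/-- The substitution `x_ij ↦ t_i s_j x_ij`. -/
noncomputable def scale {m : ℕ} (t s : Fin m → ℂ) :
    MvPolynomial (Fin m × Fin m) ℂ →ₐ[ℂ] MvPolynomial (Fin m × Fin m) ℂ :=
  aeval fun e => C (t e.1 * s e.2) * X e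

/-- The matrix `A(x)` respects the substitution `x_ij ↦ t_i s_j x_ij`: the result of the
substitution is `P A(x) Q` or `P A(x)ᵀ Q` for two matrices `P` and `Q` of complex numbers. -/
def Respects {m n : ℕ} (A : Matrix (Fin n) (Fin n) (MvPolynomial (Fin m × Fin m) ℂ))
    (t s : Fin m → ℂ) : Prop :=
  ∃ P Q : Matrix (Fin n) (Fin n) ℂ,
    A.map (scale t s) = P.map C * A * Q.map C ∨
      A.map (scale t s) = P.map C * A.transpose * Q.map C

/-- `(t, s)` is generic on `R`: the squares of the products `∏_{i ∈ S} t_i ∏_{j ∈ S'} s_j`, for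
`S, S' ⊆ R` with `|S| = |S'|`, are pairwise distinct; and `t_i s_i = 1` for `i` outside `R`. -/
def GenericOn {m : ℕ} (R : Finset (Fin m)) (t s : Fin m → ℂ) : Prop :=
  (∀ S S' T T' : Finset (Fin m), S ⊆ R → S' ⊆ R → T ⊆ R → T' ⊆ R →
    S.card = S'.card → T.card = T'.card →
    ((∏ i ∈ S, t i) * ∏ j ∈ S', s j) ^ 2 = ((∏ i ∈ T, t i) * ∏ j ∈ T', s j) ^ 2 →
    S = T ∧ S' = T') ∧
  ∀ i, i ∉ R → t i * s i = 1

/-- **Main theorem.**  (1) A determinantal representation of size `n` of `perm_m` which respects one
diagonal symmetry that is generic on a block `R` with at least three elements has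
`n ≥ 2 ^ |R| - 1`.  (2) For every `m ≥ 1` there is a representation of size `2 ^ m - 1` which
respects all diagonal symmetries with nonzero entries. -/
theorem result :
    (∀ (m n : ℕ) (A : Matrix (Fin n) (Fin n) (MvPolynomial (Fin m × Fin m) ℂ))
      (R : Finset (Fin m)) (t s : Fin m → ℂ), IsRepresentation A → 3 ≤ R.card →
      GenericOn R t s → Respects A t s → 2 ^ R.card - 1 ≤ n) ∧
    ∀ m : ℕ, 1 ≤ m →
      ∃ A : Matrix (Fin (2 ^ m - 1)) (Fin (2 ^ m - 1)) (MvPolynomial (Fin m × Fin m) ℂ),
        IsRepresentation A ∧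
        ∀ t s : Fin m → ℂ, (∀ i, t i ≠ 0) → (∀ i, s i ≠ 0) → Respects A t s := by
  constructor
  · intro m n A R t s hA hR hg hr
    obtain ⟨P, Q, h⟩ := hr
    have := L5helper20.PD.block_bound (F := ℂ) two_ne_zero A hA.1 hA.2 R hR t s hg.2 hg.1 P Q h
    rwa [Fintype.card_fin] at this
  · intro m hm
    obtain ⟨A, h1, h2, h3⟩ := L5helper20.PD.grenet (F := ℂ) hm
    refine ⟨A, ⟨h1, h2⟩, fun t s ht hs => ?_⟩
    obtain ⟨P, Q, h⟩ := h3 t s ht hs
    exact ⟨P, Q, Or.inl h⟩

end Pool.Agent.L5helper20.DG.DiagonalSymmetry
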