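import Pool.Agent.L5helper20.DG.Rows

/-!
The gadget: a combination with nonzero coefficients of the sums of all `r × r` subpermanents of
`κ` disjoint matrices of variables is the permanent of one matrix with entries variables or
constants.
-/

set_option autoImplicit false

namespace Pool.Agent.L5helper20.DG

open Finset MvPolynomial L5helper59.DC

/-- The entries of the matrix. -/
noncomputable def entry (ρ γ : Type) (k b r d : ℕ) (ζ : ℂ) :
    ρ ⊕ ((Fin (k + 1) × Fin b) ⊕ (Fin k × Fin r)) → ((Fin (k + 1) × γ) ⊕ Fin d) →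
      MvPolynomial (ρ × Fin (k + 1) × γ) ℂ
  | .inl i, .inl p => X (i, p)
  | .inl _, .inr _ => C 1
  | .inr (.inl (g, _)), .inl p => C (if p.1 = g then 1 else 0)
  | .inr (.inr (g, c)), .inl p =>
      C ((if p.1 = g.castSucc then 1 else 0) - (if p.1 = g.succ then ζ ^ (c : ℕ) else 0))
  | .inr _, .inr _ => C 0

theorem entry_form (ρ γ : Type) (k b r d : ℕ) (ζ : ℂ)
    (a : ρ ⊕ ((Fin (k + 1) × Fin b) ⊕ (Fin k × Fin r))) (c : (Fin (k + 1) × γ) ⊕ Fin d) :
    (∃ v, entry ρ γ k b r d ζ a c = X v) ∨ (∃ z, entry ρ γ k b r d ζ a c = C z) := by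
  rcases a with i | ⟨g, e⟩ | ⟨g, e⟩ <;> rcases c with p | t
  · exact Or.inl ⟨_, rfl⟩
  · exact Or.inr ⟨_, rfl⟩
  · exact Or.inr ⟨_, rfl⟩
  · exact Or.inr ⟨_, rfl⟩
  · exact Or.inr ⟨_, rfl⟩
  · exact Or.inr ⟨_, rfl⟩

/-- The sum of the variables of a block. -/
noncomputable def blk {κ γ : Type} [Fintype γ] (d : ℕ) (R : Type) [CommRing R] (g : κ) :
    MvPolynomial ((κ × γ) ⊕ Fin d) R := ∑ j, X (Sum.inl (g, j))

theorem sum_block {γ : Type} [Fintype γ] {κ R : Type} [CommRing R] [Fintype κ] [DecidableEq κ] (d : ℕ) (g : κ) (z : R) :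
    ∑ p : κ × γ, C (if p.1 = g then z else 0) *
      (X (Sum.inl p) : MvPolynomial ((κ × γ) ⊕ Fin d) R) = C z * blk d R g := by
  rw [Fintype.sum_prod_type, sum_eq_single g]
  · unfold blk
    rw [mul_sum]
    refine sum_congr rfl fun j _ => ?_
    rw [if_pos rfl]
  · intro g' _ hg'
    refine sum_eq_zero fun j _ => ?_
    rw [if_neg hg', C_0, zero_mul]
  · intro hg
    exact absurd (mem_univ g) hg

theorem lin_inl {ρ γ : Type} [Fintype γ] (k b r d : ℕ) (ζ : ℂ) (i : ρ) :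
    lin (entry ρ γ k b r d ζ (.inl i)) =
      rename Sum.inl (lin (fun p => (X (i, p) : MvPolynomial (ρ × Fin (k + 1) × γ) ℂ))) +
        rename Sum.inr (∑ t : Fin d, X t) := by
  unfold lin
  rw [Fintype.sum_sum_type, map_sum, map_sum]
  congr 1
  · refine sum_congr rfl fun p _ => ?_
    rw [map_mul, rename_C, rename_X]
    rfl
  · refine sum_congr rfl fun p _ => ?_
    rw [rename_X]
    change C (C 1) * _ = _
    rw [C_1, C_1, one_mul]

theorem lin_inr_inl {ρ γ : Type} [Fintype γ] [DecidableEq γ] (k b r d : ℕ) (ζ : ℂ) (g : Fin (k + 1)) (e : Fin b) :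
    lin (entry ρ γ k b r d ζ (.inr (.inl (g, e)))) =
      blk d (MvPolynomial (ρ × Fin (k + 1) × γ) ℂ) g := by
  unfold lin
  rw [Fintype.sum_sum_type]
  have h1 : ∑ t : Fin d, C (entry ρ γ k b r d ζ (.inr (.inl (g, e))) (Sum.inr t)) *
      (X (Sum.inr t) : MvPolynomial ((Fin (k + 1) × γ) ⊕ Fin d)
        (MvPolynomial (ρ × Fin (k + 1) × γ) ℂ)) = 0 := by
    refine sum_eq_zero fun t _ => ?_
    change C (C 0) * _ = _
    rw [C_0, C_0, zero_mul]
  rw [h1, add_zero]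
  have h2 := sum_block (γ := γ) d g (1 : MvPolynomial (ρ × Fin (k + 1) × γ) ℂ)
  rw [C_1, one_mul] at h2
  rw [← h2]
  refine sum_congr rfl fun p _ => ?_
  change C (C _) * _ = _
  congr 2
  split_ifs
  · exact C_1
  · exact C_0

theorem lin_inr_inr {ρ γ : Type} [Fintype γ] [DecidableEq γ] (k b r d : ℕ) (ζ : ℂ) (g : Fin k) (c : Fin r) :
    lin (entry ρ γ k b r d ζ (.inr (.inr (g, c)))) =
      blk d (MvPolynomial (ρ × Fin (k + 1) × γ) ℂ) g.castSucc -
        (C (C ζ)) ^ (c : ℕ) * blk d (MvPolynomial (ρ × Fin (k + 1) × γ) ℂ) g.succ := by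
  unfold lin
  rw [Fintype.sum_sum_type]
  have h1 : ∑ t : Fin d, C (entry ρ γ k b r d ζ (.inr (.inr (g, c))) (Sum.inr t)) *
      (X (Sum.inr t) : MvPolynomial ((Fin (k + 1) × γ) ⊕ Fin d)
        (MvPolynomial (ρ × Fin (k + 1) × γ) ℂ)) = 0 := by
    refine sum_eq_zero fun t _ => ?_
    change C (C 0) * _ = _
    rw [C_0, C_0, zero_mul]
  rw [h1, add_zero]
  have h2 := sum_block (γ := γ) d g.castSucc (1 : MvPolynomial (ρ × Fin (k + 1) × γ) ℂ)
  have h3 := sum_block (γ := γ) d g.succ (C (ζ ^ (c : ℕ)) : MvPolynomial (ρ × Fin (k + 1) × γ) ℂ)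
  rw [C_1, one_mul] at h2
  rw [map_pow, map_pow] at h3
  rw [← h2, ← h3, ← sum_sub_distrib]
  refine sum_congr rfl fun p _ => ?_
  rw [← sub_mul, ← C_sub]
  congr 2
  change C (_ - _) = _
  rw [C_sub]
  congr 1
  · split_ifs
    · exact C_1
    · exact C_0
  · split_ifs
    · rw [C_pow]
    · exact C_0

theorem prod_used {κ γ S : Type} [Fintype κ] [DecidableEq κ] [Fintype γ] [DecidableEq γ]
    [CommRing S] (d : ℕ) (l : κ) (D : Finset γ) (x : (κ × γ) ⊕ Fin d → S) :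
    ∏ c ∈ used d l D, x c = (∏ j ∈ D, x (Sum.inl (l, j))) *
      ∏ g ∈ univ.erase l, ∏ j, x (Sum.inl (g, j)) := by
  unfold used
  rw [prod_image (fun a _ b _ h => Sum.inl_injective h), prod_filter, Fintype.prod_prod_type,
    ← mul_prod_erase univ _ (mem_univ l)]
  congr 1
  · rw [← prod_filter]
    refine prod_congr ?_ fun _ _ => rfl
    ext j
    simp
  · refine prod_congr rfl fun g hg => prod_congr rfl fun j _ => ?_
    rw [if_pos (Or.inl (ne_of_mem_erase hg))]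

/-- The rows without variables, modulo the squares of the variables. -/
theorem mk_blocks {γ R : Type} [Fintype γ] [DecidableEq γ] [CommRing R] (k b r d : ℕ)
    (hγ : Fintype.card γ = b + r) (hr : 0 < r) :
    Ideal.Quotient.mk (sq ((Fin (k + 1) × γ) ⊕ Fin d) R)
      ((∏ g, blk d R g ^ b) * ∏ g : Fin k, (blk d R g.castSucc ^ r - blk d R g.succ ^ r)) =
    Ideal.Quotient.mk (sq ((Fin (k + 1) × γ) ⊕ Fin d) R)
      (∑ l : Fin (k + 1), ((-1) ^ (k - (l : ℕ)) * (b.factorial : MvPolynomial _ R) *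
        ((b + r).factorial : MvPolynomial _ R) ^ k) *
          ∑ D ∈ powersetCard b (univ : Finset γ), ∏ c ∈ used d l D, X c) := by
  set q := Ideal.Quotient.mk (sq ((Fin (k + 1) × γ) ⊕ Fin d) R) with hq
  have hx : ∀ (g : Fin (k + 1)) (n : ℕ), q (blk d R g) ^ n =
      (n.factorial : _) * ∑ D ∈ powersetCard n univ, ∏ j ∈ D, q (X (Sum.inl (g, j))) := by
    intro g n
    unfold blk
    rw [map_sum, zeon_pow _ _ (fun j _ => mk_X_sq _)]
  have hfull : ∀ g : Fin (k + 1), q (blk d R g) ^ (b + r) =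
      ((b + r).factorial : _) * ∏ j : γ, q (X (Sum.inl (g, j))) := by
    intro g
    have h3 := powersetCard_self (univ : Finset γ)
    rw [card_univ, hγ] at h3
    rw [hx, h3, sum_singleton]
  have hzero : ∀ g : Fin (k + 1), q (blk d R g) ^ (b + r) * q (blk d R g) ^ r = 0 := by
    intro g
    rw [← pow_add, hx, powersetCard_eq_empty.2, sum_empty, mul_zero]
    rw [card_univ, hγ]
    omega
  have h1 := tele b r k (fun g => q (blk d R g)) hzero
  rw [map_mul, map_prod, map_prod]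
  simp only [map_pow, map_sub]
  rw [h1, map_sum]
  refine sum_congr rfl fun l _ => ?_
  rw [map_mul, map_mul, map_mul, map_pow, map_pow, map_neg, map_one, map_natCast, map_natCast,
    mul_assoc, mul_assoc, map_sum, ← mul_prod_erase univ _ (mem_univ l), if_pos rfl, hx]
  have h2 : ∏ g ∈ univ.erase l, q (blk d R g) ^ (if g = l then b else b + r) =
      ((b + r).factorial : _) ^ k * ∏ g ∈ univ.erase l, ∏ j : γ, q (X (Sum.inl (g, j))) := by
    have h3 : (univ.erase l).card = k := by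
      rw [card_erase_of_mem (mem_univ l), card_univ, Fintype.card_fin]
      rfl
    have h5 : ∏ _g ∈ univ.erase l,
        ((b + r).factorial : MvPolynomial ((Fin (k + 1) × γ) ⊕ Fin d) R ⧸
          sq ((Fin (k + 1) × γ) ⊕ Fin d) R) = ((b + r).factorial : _) ^ k := by
      rw [prod_const, h3]
    rw [← h5, ← prod_mul_distrib]
    refine prod_congr rfl fun g hg => ?_
    rw [if_neg (ne_of_mem_erase hg), hfull]
  rw [h2]
  have h4 : ∀ D ∈ powersetCard b (univ : Finset γ), q (∏ c ∈ used d l D, X c) =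
      (∏ j ∈ D, q (X (Sum.inl (l, j)))) * ∏ g ∈ univ.erase l, ∏ j, q (X (Sum.inl (g, j))) := by
    intro D _
    rw [map_prod, prod_used]
  rw [sum_congr rfl h4, ← sum_mul]
  ring

theorem coeff_mul_blocks {γ R : Type} [Fintype γ] [DecidableEq γ] [CommRing R] (k b r d : ℕ)
    (hγ : Fintype.card γ = b + r) (hr : 0 < r)
    (P : MvPolynomial ((Fin (k + 1) × γ) ⊕ Fin d) R) :
    coeff (ex univ) (P * ((∏ g, blk d R g ^ b) *
      ∏ g : Fin k, (blk d R g.castSucc ^ r - blk d R g.succ ^ r))) =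
    ∑ l : Fin (k + 1), ((-1) ^ (k - (l : ℕ)) * (b.factorial : R) * ((b + r).factorial : R) ^ k) *
      ∑ D ∈ powersetCard b (univ : Finset γ), coeff (ex (univ \ used d l D)) P := by
  have h2 := mk_blocks (γ := γ) (R := R) k b r d hγ hr
  have h3 := coeff_eq_of_mk (P := P * ((∏ g, blk d R g ^ b) *
      ∏ g : Fin k, (blk d R g.castSucc ^ r - blk d R g.succ ^ r))) (Q := P *
      (∑ l : Fin (k + 1), ((-1) ^ (k - (l : ℕ)) * (b.factorial : MvPolynomial _ R) *
        ((b + r).factorial : MvPolynomial _ R) ^ k) *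
          ∑ D ∈ powersetCard b (univ : Finset γ), ∏ c ∈ used d l D, X c))
      (by rw [map_mul, h2, ← map_mul])
  rw [h3, mul_sum, coeff_sum]
  refine sum_congr rfl fun l _ => ?_
  have h4 : ((-1) ^ (k - (l : ℕ)) * (b.factorial : MvPolynomial ((Fin (k + 1) × γ) ⊕ Fin d) R) *
      ((b + r).factorial : MvPolynomial _ _) ^ k) =
      C ((-1) ^ (k - (l : ℕ)) * (b.factorial : R) * ((b + r).factorial : R) ^ k) := by
    simp
  rw [h4, mul_left_comm, coeff_C_mul, mul_sum, coeff_sum]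
  simp only [coeff_mul_prod]

/-- The product of the linear forms of the rows. -/
theorem prod_lin {ρ γ : Type} [Fintype ρ] [DecidableEq ρ] [Fintype γ] [DecidableEq γ]
    (k b r d : ℕ) {ζ : ℂ} (hζ : IsPrimitiveRoot ζ r) (hr : 0 < r) :
    ∏ a, lin (entry ρ γ k b r d ζ a) =
      (∏ i : ρ, ((rename Sum.inl (lin (fun p => (X (i, p) :
        MvPolynomial (ρ × Fin (k + 1) × γ) ℂ))) : MvPolynomial ((Fin (k + 1) × γ) ⊕ Fin d) _) +
          rename Sum.inr (∑ t : Fin d, X t))) *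
      ((∏ g, blk d (MvPolynomial (ρ × Fin (k + 1) × γ) ℂ) g ^ b) *
        ∏ g : Fin k, (blk d (MvPolynomial (ρ × Fin (k + 1) × γ) ℂ) g.castSucc ^ r -
          blk d (MvPolynomial (ρ × Fin (k + 1) × γ) ℂ) g.succ ^ r)) := by
  have hζ' : IsPrimitiveRoot (C (C ζ) : MvPolynomial ((Fin (k + 1) × γ) ⊕ Fin d)
      (MvPolynomial (ρ × Fin (k + 1) × γ) ℂ)) r :=
    (hζ.map_of_injective (C_injective _ _)).map_of_injective (C_injective _ _)
  have e1 : ∏ i : ρ, lin (entry ρ γ k b r d ζ (.inl i)) =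
      ∏ i : ρ, ((rename Sum.inl (lin (fun p => (X (i, p) :
        MvPolynomial (ρ × Fin (k + 1) × γ) ℂ))) : MvPolynomial ((Fin (k + 1) × γ) ⊕ Fin d) _) +
          rename Sum.inr (∑ t : Fin d, X t)) := prod_congr rfl fun i _ => lin_inl k b r d ζ i
  have e2 : ∏ a : Fin (k + 1) × Fin b, lin (entry ρ γ k b r d ζ (.inr (.inl a))) =
      ∏ g, blk d (MvPolynomial (ρ × Fin (k + 1) × γ) ℂ) g ^ b := by
    rw [Fintype.prod_prod_type]
    refine prod_congr rfl fun g _ => ?_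
    rw [prod_congr rfl (fun e _ => lin_inr_inl k b r d ζ g e), prod_const, card_univ,
      Fintype.card_fin]
  have e3 : ∏ a : Fin k × Fin r, lin (entry ρ γ k b r d ζ (.inr (.inr a))) =
      ∏ g : Fin k, (blk d (MvPolynomial (ρ × Fin (k + 1) × γ) ℂ) g.castSucc ^ r -
          blk d (MvPolynomial (ρ × Fin (k + 1) × γ) ℂ) g.succ ^ r) := by
    rw [Fintype.prod_prod_type]
    refine prod_congr rfl fun g _ => ?_
    rw [prod_congr rfl (fun c _ => lin_inr_inr k b r d ζ g c)]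
    exact prod_roots hr hζ' _ _
  rw [Fintype.prod_sum_type, Fintype.prod_sum_type, e1, e2, e3]

/-- The permanent of the gadget. -/
theorem permanent_entry {ρ γ : Type} [Fintype ρ] [DecidableEq ρ] [Fintype γ] [DecidableEq γ]
    (k b r d : ℕ) {ζ : ℂ} (hζ : IsPrimitiveRoot ζ r) (hr : 0 < r)
    (hγ : Fintype.card γ = b + r) (hρ : r + d = Fintype.card ρ) :
    coeff (ex univ) (∏ a, lin (entry ρ γ k b r d ζ a)) =
      ∑ l : Fin (k + 1), C ((-1) ^ (k - (l : ℕ)) * (b.factorial : ℂ) *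
        ((b + r).factorial : ℂ) ^ k * (d.factorial : ℂ)) *
          sig r (fun (i : ρ) (j : γ) => (X (i, l, j) : MvPolynomial (ρ × Fin (k + 1) × γ) ℂ)) := by
  rw [prod_lin k b r d hζ hr, coeff_mul_blocks k b r d hγ hr]
  refine sum_congr rfl fun l _ => ?_
  rw [sum_congr rfl (fun D _ => coeff_rows (fun i p => (X (i, p) :
        MvPolynomial (ρ × Fin (k + 1) × γ) ℂ)) d r hρ l D), ← mul_sum, ← mul_assoc]
  have h5 : (-1) ^ (k - (l : ℕ)) * (b.factorial : MvPolynomial (ρ × Fin (k + 1) × γ) ℂ) *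
        ((b + r).factorial : MvPolynomial (ρ × Fin (k + 1) × γ) ℂ) ^ k *
          (d.factorial : MvPolynomial (ρ × Fin (k + 1) × γ) ℂ) =
      C ((-1) ^ (k - (l : ℕ)) * (b.factorial : ℂ) *
        ((b + r).factorial : ℂ) ^ k * (d.factorial : ℂ)) := by simp
  rw [h5]
  congr 1
  unfold sig sqf esr
  simp only [coeff_sum]
  refine sum_bij' (fun D _ => univ \ D) (fun D _ => univ \ D) ?_ ?_ ?_ ?_ ?_
  · intro D hD
    rw [mem_powersetCard] at hD ⊢
    refine ⟨subset_univ _, ?_⟩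
    rw [card_sdiff_of_subset hD.1, hD.2, card_univ, hγ]
    omega
  · intro D hD
    rw [mem_powersetCard] at hD ⊢
    refine ⟨subset_univ _, ?_⟩
    rw [card_sdiff_of_subset hD.1, hD.2, card_univ, hγ]
    omega
  · intro D hD
    simp
  · intro D hD
    simp
  · intro D hD
    rfl

/-- The gadget. -/
theorem gadget (κ r : ℕ) (hκ : 1 ≤ κ) (hr : 1 ≤ r) (ρ γ : Type) [Fintype ρ] [Fintype γ]
    [DecidableEq ρ] [DecidableEq γ] (hρ : r ≤ Fintype.card ρ) (hγ : r ≤ Fintype.card γ) :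
    ∃ (m : ℕ) (M : Matrix (Fin m) (Fin m) (MvPolynomial (ρ × Fin κ × γ) ℂ)) (lam : Fin κ → ℂ),
      m + r = Fintype.card ρ + κ * Fintype.card γ ∧ (∀ l, lam l ≠ 0) ∧
      (∀ a b, (∃ v, M a b = MvPolynomial.X v) ∨ (∃ c, M a b = MvPolynomial.C c)) ∧
      M.permanent = ∑ l, MvPolynomial.C (lam l) *
        sig r (fun (i : ρ) (j : γ) => MvPolynomial.X (R := ℂ) (i, l, j)) := by
  obtain ⟨k, rfl⟩ : ∃ k, κ = k + 1 := ⟨κ - 1, by omega⟩
  obtain ⟨b, hb⟩ : ∃ b, Fintype.card γ = b + r := ⟨Fintype.card γ - r, by omega⟩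
  obtain ⟨d, hd⟩ : ∃ d, r + d = Fintype.card ρ := ⟨Fintype.card ρ - r, by omega⟩
  have hζ := Complex.isPrimitiveRoot_exp r (by omega)
  set ζ := Complex.exp (2 * Real.pi * Complex.I / r)
  have hcol : Fintype.card ((Fin (k + 1) × γ) ⊕ Fin d) = (k + 1) * (b + r) + d := by
    rw [Fintype.card_sum, Fintype.card_prod, Fintype.card_fin, Fintype.card_fin, hb]
  have hrow : Fintype.card (ρ ⊕ ((Fin (k + 1) × Fin b) ⊕ (Fin k × Fin r))) =
      (k + 1) * (b + r) + d := by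
    rw [Fintype.card_sum, Fintype.card_sum, Fintype.card_prod, Fintype.card_prod,
      Fintype.card_fin, Fintype.card_fin, Fintype.card_fin, Fintype.card_fin, ← hd]
    ring
  let e₁ : Fin ((k + 1) * (b + r) + d) ≃ (ρ ⊕ ((Fin (k + 1) × Fin b) ⊕ (Fin k × Fin r))) :=
    (Fintype.equivFinOfCardEq hrow).symm
  let e₂ : Fin ((k + 1) * (b + r) + d) ≃ ((Fin (k + 1) × γ) ⊕ Fin d) :=
    (Fintype.equivFinOfCardEq hcol).symm
  refine ⟨(k + 1) * (b + r) + d, Matrix.of fun a c => entry ρ γ k b r d ζ (e₁ a) (e₂ c),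
    fun l => (-1) ^ (k - (l : ℕ)) * (b.factorial : ℂ) *
        ((b + r).factorial : ℂ) ^ k * (d.factorial : ℂ), ?_, ?_, ?_, ?_⟩
  · rw [hb, ← hd]
    ring
  · intro l
    have h1 : (b.factorial : ℂ) ≠ 0 := Nat.cast_ne_zero.2 (Nat.factorial_ne_zero b)
    have h2 : ((b + r).factorial : ℂ) ≠ 0 := Nat.cast_ne_zero.2 (Nat.factorial_ne_zero _)
    have h3 : (d.factorial : ℂ) ≠ 0 := Nat.cast_ne_zero.2 (Nat.factorial_ne_zero _)
    have h4 : ((-1 : ℂ)) ^ (k - (l : ℕ)) ≠ 0 := pow_ne_zero _ (neg_ne_zero.2 one_ne_zero)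
    exact mul_ne_zero (mul_ne_zero (mul_ne_zero h4 h1) (pow_ne_zero _ h2)) h3
  · intro a c
    exact entry_form ρ γ k b r d ζ (e₁ a) (e₂ c)
  · rw [permanent_eq (entry ρ γ k b r d ζ) e₁ e₂]
    exact permanent_entry k b r d hζ (by omega) hb hd

end Pool.Agent.L5helper20.DG
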