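import Pool.Agent.L5helper20.DG.Perm

/-!
Polynomials in separate variables, products over roots of unity, and the rows of free choice.
-/

set_option autoImplicit false

namespace Pool.Agent.L5helper20.DG

open Finset MvPolynomial L5helper59.DC

/-- Coefficients of products of polynomials in separate variables. -/
theorem coeff_sum_rename {σ τ R : Type*} [CommRing R] (P : MvPolynomial σ R)
    (Q : MvPolynomial τ R) (u : σ →₀ ℕ) (v : τ →₀ ℕ) :
    coeff (u.mapDomain Sum.inl + v.mapDomain Sum.inr)
      ((rename Sum.inl P : MvPolynomial (σ ⊕ τ) R) * rename Sum.inr Q) =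
      coeff u P * coeff v Q := by
  classical
  induction P using MvPolynomial.induction_on' with
  | monomial u' a =>
    induction Q using MvPolynomial.induction_on' with
    | monomial v' c =>
      rw [rename_monomial, rename_monomial, monomial_mul, coeff_monomial, coeff_monomial,
        coeff_monomial]
      have h : (u'.mapDomain Sum.inl + v'.mapDomain Sum.inr : σ ⊕ τ →₀ ℕ) =
          u.mapDomain Sum.inl + v.mapDomain Sum.inr ↔ u' = u ∧ v' = v := by
        constructor
        · intro h
          constructor
          · ext x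
            have := DFunLike.congr_fun h (Sum.inl x)
            rw [Finsupp.add_apply, Finsupp.add_apply, Finsupp.mapDomain_apply Sum.inl_injective,
              Finsupp.mapDomain_apply Sum.inl_injective, Finsupp.mapDomain_of_notMem_range,
              Finsupp.mapDomain_of_notMem_range, add_zero, add_zero] at this
            · exact this
            · simp
            · simp
          · ext x
            have := DFunLike.congr_fun h (Sum.inr x)
            rw [Finsupp.add_apply, Finsupp.add_apply, Finsupp.mapDomain_apply Sum.inr_injective,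
              Finsupp.mapDomain_apply Sum.inr_injective, Finsupp.mapDomain_of_notMem_range,
              Finsupp.mapDomain_of_notMem_range, zero_add, zero_add] at this
            · exact this
            · simp
            · simp
        · rintro ⟨rfl, rfl⟩
          rfl
      by_cases h1 : u' = u
      · by_cases h2 : v' = v
        · rw [if_pos (h.2 ⟨h1, h2⟩), if_pos h1, if_pos h2]
        · rw [if_neg (fun h3 => h2 (h.1 h3).2), if_neg h2, mul_zero]
      · rw [if_neg (fun h3 => h1 (h.1 h3).1), if_neg h1, zero_mul]
    | add p q hp hq => rw [map_add, mul_add, coeff_add, hp, hq, coeff_add, mul_add]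
  | add p q hp hq => rw [map_add, add_mul, coeff_add, hp, hq, coeff_add, add_mul]

/-- Powers of the sum of all variables. -/
theorem coeff_sum_pow {R : Type*} [CommRing R] (d n : ℕ) :
    coeff (ex univ) ((∑ t : Fin d, (X t : MvPolynomial (Fin d) R)) ^ n) =
      if n = d then (d.factorial : R) else 0 := by
  have h : Ideal.Quotient.mk (sq (Fin d) R) ((∑ t : Fin d, (X t : MvPolynomial (Fin d) R)) ^ n) =
      Ideal.Quotient.mk (sq (Fin d) R)
        ((n.factorial : MvPolynomial (Fin d) R) * ∑ D ∈ powersetCard n univ, ∏ j ∈ D, X j) := by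
    rw [map_pow, map_sum, zeon_pow _ _ (fun j _ => mk_X_sq j), map_mul, map_natCast, map_sum]
    simp only [map_prod]
  rw [coeff_eq_of_mk h]
  have h2 : (n.factorial : MvPolynomial (Fin d) R) = C (n.factorial : R) := by simp
  rw [h2, coeff_C_mul, coeff_sum]
  by_cases hn : n = d
  · subst hn
    rw [if_pos rfl]
    have : powersetCard n (univ : Finset (Fin n)) = {univ} := by
      have h3 := powersetCard_self (univ : Finset (Fin n))
      rwa [card_univ, Fintype.card_fin] at h3
    rw [this, sum_singleton, prod_X, coeff_monomial, if_pos rfl, mul_one]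
  · rw [if_neg hn]
    rw [sum_eq_zero, mul_zero]
    intro D hD
    rw [prod_X, coeff_monomial, if_neg]
    intro h3
    apply hn
    have h4 : D = univ := by
      ext x
      have := DFunLike.congr_fun h3 x
      rw [ex_apply, ex_apply, if_pos (mem_univ x)] at this
      by_contra hx
      rw [if_neg (fun h => hx (iff_of_true h (mem_univ x)))] at this
      exact zero_ne_one this
    have h5 := (mem_powersetCard.1 hD).2
    rw [h4, card_univ, Fintype.card_fin] at h5
    exact h5.symm

/-- The product over the roots of unity. -/
theorem prod_roots {S : Type*} [CommRing S] [IsDomain S] {ζ : S} {r : ℕ} (hr : 0 < r)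
    (h : IsPrimitiveRoot ζ r) (x y : S) :
    ∏ c : Fin r, (x - ζ ^ (c : ℕ) * y) = x ^ r - y ^ r := by
  classical
  rw [h.pow_sub_pow_eq_prod_sub_mul x y hr]
  refine prod_bij (fun c _ => ζ ^ (c : ℕ)) ?_ ?_ ?_ ?_
  · intro c _
    rw [Polynomial.mem_nthRootsFinset hr, ← pow_mul, mul_comm, pow_mul, h.pow_eq_one, one_pow]
  · intro c _ c' _ hc
    exact Fin.ext (h.pow_inj c.2 c'.2 hc)
  · intro ξ hξ
    rw [Polynomial.mem_nthRootsFinset hr] at hξ
    have : NeZero r := ⟨hr.ne'⟩
    obtain ⟨i, hi, rfl⟩ := h.eq_pow_of_pow_eq_one hξ
    exact ⟨⟨i, hi⟩, mem_univ _, rfl⟩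
  · intro c _
    rfl

theorem ex_union {σ : Type*} [DecidableEq σ] {A B : Finset σ} (h : Disjoint A B) :
    ex A + ex B = ex (A ∪ B) := by
  unfold ex
  rw [sum_union h]

/-- The columns which are used by the rows without variables. -/
def used {κ γ : Type*} [Fintype κ] [DecidableEq κ] [Fintype γ] [DecidableEq γ] (d : ℕ) (l : κ)
    (D : Finset γ) : Finset ((κ × γ) ⊕ Fin d) :=
  (univ.filter fun p : κ × γ => p.1 ≠ l ∨ p.2 ∈ D).image Sum.inl

theorem ex_unused {κ γ : Type*} [Fintype κ] [DecidableEq κ] [Fintype γ] [DecidableEq γ] (d : ℕ)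
    (l : κ) (D : Finset γ) :
    ex (univ \ used d l D) =
      ((ex (univ \ D)).mapDomain (fun j => (l, j))).mapDomain Sum.inl +
        (ex (univ : Finset (Fin d))).mapDomain Sum.inr := by
  have hinj : Function.Injective (fun j : γ => (l, j)) := fun a b h => (Prod.ext_iff.1 h).2
  rw [mapDomain_ex hinj, mapDomain_ex Sum.inl_injective, mapDomain_ex Sum.inr_injective, ex_union]
  · congr 1
    ext c
    rcases c with ⟨g, j⟩ | t
    · simp only [used, mem_sdiff, mem_univ, true_and, mem_image, mem_filter, Sum.inl.injEq,
        exists_eq_right, ne_eq, mem_union, reduceCtorEq, and_false, exists_false, or_false,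
        Prod.mk.injEq]
      constructor
      · intro h
        push Not at h
        exact ⟨j, h.2, h.1.symm, rfl⟩
      · rintro ⟨j', h1, rfl, rfl⟩
        push Not
        exact ⟨rfl, h1⟩
    · simp [used]
  · rw [disjoint_left]
    intro c hc hc'
    obtain ⟨_, _, rfl⟩ := mem_image.1 hc
    obtain ⟨_, _, h⟩ := mem_image.1 hc'
    exact Sum.inr_ne_inl h

/-- The coefficient of the rows with variables and free choice. -/
theorem coeff_rows {κ ρ γ : Type*} [Fintype κ] [DecidableEq κ] [Fintype ρ] [DecidableEq ρ]
    [Fintype γ] [DecidableEq γ] {R : Type*} [CommRing R] (y : ρ → κ × γ → R) (d r : ℕ)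
    (h : r + d = Fintype.card ρ) (l : κ) (D : Finset γ) :
    coeff (ex (univ \ used d l D)) (∏ i, ((rename Sum.inl (lin (y i)) :
      MvPolynomial ((κ × γ) ⊕ Fin d) R) + rename Sum.inr (∑ t : Fin d, X t))) =
      (d.factorial : R) * ∑ S ∈ powersetCard r univ,
        coeff (ex (univ \ D)) (∏ i ∈ S, lin (fun j => y i (l, j))) := by
  have hinj : Function.Injective (fun j : γ => (l, j)) := fun a b h => (Prod.ext_iff.1 h).2
  have hk : ∀ i, killCompl hinj (lin (y i)) = lin (fun j => y i (l, j)) := by
    intro i
    have h1 : ∀ p : κ × γ, killCompl hinj (C (y i p) * X p : MvPolynomial (κ × γ) R) =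
        if p.1 = l then C (y i p) * X p.2 else 0 := by
      rintro ⟨g, j⟩
      by_cases hg : g = l
      · subst hg
        rw [if_pos rfl, map_mul]
        have h2 : (X (g, j) : MvPolynomial (κ × γ) R) = rename (fun j => (g, j)) (X j) := by
          rw [rename_X]
        have h3 : (C (y i (g, j)) : MvPolynomial (κ × γ) R) =
            rename (fun j => (g, j)) (C (y i (g, j))) := by
          rw [rename_C]
        rw [h2, h3, killCompl_rename_app, killCompl_rename_app]
      · rw [if_neg hg, map_mul]
        have h2 : killCompl hinj (X (g, j) : MvPolynomial (κ × γ) R) = 0 := by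
          unfold killCompl
          rw [aeval_X, dif_neg]
          rintro ⟨j', hj'⟩
          exact hg (Prod.ext_iff.1 hj').1.symm
        rw [h2, mul_zero]
    unfold lin
    rw [map_sum, sum_congr rfl (fun p _ => h1 p), Fintype.sum_prod_type]
    rw [sum_eq_single l]
    · simp
    · intro g _ hg
      exact sum_eq_zero fun j _ => if_neg hg
    · intro hl
      exact absurd (mem_univ l) hl
  rw [prod_add, coeff_sum, ex_unused]
  have h1 : ∀ S ∈ (univ : Finset ρ).powerset,
      coeff (((ex (univ \ D)).mapDomain (fun j => (l, j))).mapDomain Sum.inl +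
        (ex (univ : Finset (Fin d))).mapDomain Sum.inr)
        ((∏ i ∈ S, (rename Sum.inl (lin (y i)) : MvPolynomial ((κ × γ) ⊕ Fin d) R)) *
          ∏ i ∈ univ \ S, rename Sum.inr (∑ t : Fin d, X t)) =
        if S.card = r then (d.factorial : R) *
          coeff (ex (univ \ D)) (∏ i ∈ S, lin (fun j => y i (l, j))) else 0 := by
    intro S _
    rw [prod_const, ← map_prod, ← map_pow, coeff_sum_rename, coeff_sum_pow, ← coeff_killCompl hinj,
      map_prod]
    simp only [hk]
    have h2 : (univ \ S).card + S.card = Fintype.card ρ := by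
      rw [card_sdiff_add_card_eq_card (subset_univ S), card_univ]
    by_cases h3 : S.card = r
    · rw [if_pos h3, if_pos (by omega), mul_comm]
    · rw [if_neg h3, if_neg (by omega), mul_zero]
  rw [sum_congr rfl h1, ← sum_filter, ← powersetCard_eq_filter, mul_sum]

end Pool.Agent.L5helper20.DG
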