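import Pool.Agent.L5helper59.DC.Defs

/-!
Tools for the gadget: permanents as coefficients of products of linear forms, and computations
modulo the squares of the variables.
-/

set_option autoImplicit false

namespace Pool.Agent.L5helper20.DG

open Finset MvPolynomial L5helper59.DC

/-- The exponent of the squarefree monomial of a finite set. -/
noncomputable def ex {σ : Type*} (C : Finset σ) : σ →₀ ℕ := ∑ j ∈ C, Finsupp.single j 1

theorem ex_apply {σ : Type*} [DecidableEq σ] (C : Finset σ) (j : σ) :
    ex C j = if j ∈ C then 1 else 0 := by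
  classical
  unfold ex
  rw [Finsupp.finsetSum_apply]
  simp [Finsupp.single_apply]

theorem prod_X {σ : Type*} {R : Type*} [CommRing R] (C : Finset σ) :
    (∏ c ∈ C, (X c : MvPolynomial σ R)) = monomial (ex C) 1 := by
  classical
  unfold ex
  induction C using Finset.induction_on with
  | empty => simp
  | insert a s ha ih => rw [prod_insert ha, ih, sum_insert ha, X, monomial_mul, one_mul]

/-- The coefficient of a squarefree multiple. -/
theorem coeff_mul_prod {σ : Type*} [DecidableEq σ] [Fintype σ] {R : Type*} [CommRing R]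
    (P : MvPolynomial σ R) (E : Finset σ) :
    coeff (ex univ) (P * ∏ c ∈ E, X c) = coeff (ex (univ \ E)) P := by
  have h : ex (univ : Finset σ) = ex (univ \ E) + ex E := by
    ext j
    rw [Finsupp.add_apply, ex_apply, ex_apply, ex_apply]
    by_cases hj : j ∈ E <;> simp [hj]
  rw [prod_X, h, coeff_mul_monomial, mul_one]

/-- The ideal of the squares of the variables. -/
noncomputable def sq (σ : Type*) (R : Type*) [CommRing R] : Ideal (MvPolynomial σ R) :=
  Ideal.span (Set.range fun c => X c ^ 2)

theorem coeff_of_mem_sq {σ : Type*} [DecidableEq σ] [Fintype σ] {R : Type*} [CommRing R]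
    {P : MvPolynomial σ R} (hP : P ∈ sq σ R) : coeff (ex univ) P = 0 := by
  unfold sq at hP
  obtain ⟨c, rfl⟩ := Ideal.mem_span_range_iff_exists_fun.1 hP
  rw [coeff_sum]
  refine sum_eq_zero fun i _ => ?_
  rw [X_pow_eq_monomial, coeff_mul_monomial', if_neg]
  intro h
  have := h i
  rw [ex_apply] at this
  simp at this

/-- Polynomials which are equal modulo the squares have the same coefficient. -/
theorem coeff_eq_of_mk {σ : Type*} [DecidableEq σ] [Fintype σ] {R : Type*} [CommRing R]
    {P Q : MvPolynomial σ R}
    (h : Ideal.Quotient.mk (sq σ R) P = Ideal.Quotient.mk (sq σ R) Q) :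
    coeff (ex univ) P = coeff (ex univ) Q := by
  have := coeff_of_mem_sq ((Ideal.Quotient.eq).1 h)
  rw [coeff_sub, sub_eq_zero] at this
  exact this

theorem mk_X_sq {σ : Type*} {R : Type*} [CommRing R] (c : σ) :
    Ideal.Quotient.mk (sq σ R) (X c) ^ 2 = 0 := by
  rw [← map_pow]
  exact Ideal.Quotient.eq_zero_iff_mem.2 (Ideal.subset_span ⟨c, rfl⟩)

theorem add_pow_zeon {S : Type*} [CommRing S] (a y : S) (ha : a ^ 2 = 0) (k : ℕ) :
    (a + y) ^ (k + 1) = y ^ (k + 1) + ((k + 1 : ℕ) : S) * (a * y ^ k) := by
  induction k with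
  | zero => simp; ring
  | succ k ih =>
    rw [pow_succ, ih]
    push_cast
    linear_combination (↑k + 1) * y ^ k * ha

/-- Powers of a sum of elements with square zero. -/
theorem zeon_pow {S : Type*} [CommRing S] {τ : Type*} [DecidableEq τ] (x : τ → S) (s : Finset τ)
    (hx : ∀ j ∈ s, x j ^ 2 = 0) (k : ℕ) :
    (∑ j ∈ s, x j) ^ k = (k.factorial : S) * ∑ D ∈ powersetCard k s, ∏ j ∈ D, x j := by
  induction s using Finset.induction_on generalizing k with
  | empty =>
    cases k with
    | zero => simp
    | succ k =>
      have : powersetCard (k + 1) (∅ : Finset τ) = ∅ := powersetCard_eq_empty.2 (by simp)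
      rw [this]
      simp
  | insert a s ha ih =>
    cases k with
    | zero => simp
    | succ k =>
      rw [sum_insert ha, add_pow_zeon _ _ (hx a (mem_insert_self _ _)),
        ih (fun j hj => hx j (mem_insert_of_mem hj)), ih (fun j hj => hx j (mem_insert_of_mem hj)),
        powersetCard_succ_insert ha, sum_union, sum_image]
      · rw [Nat.factorial_succ, mul_add]
        congr 1
        rw [mul_sum, mul_sum, mul_sum, mul_sum]
        refine sum_congr rfl fun D hD => ?_
        rw [prod_insert (fun h => ha ((mem_powersetCard.1 hD).1 h))]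
        push_cast
        ring
      · intro D hD D' hD' h
        have h1 : a ∉ D := fun h => ha ((mem_powersetCard.1 hD).1 h)
        have h2 : a ∉ D' := fun h => ha ((mem_powersetCard.1 hD').1 h)
        rw [← erase_insert h1, ← erase_insert h2]
        exact congrArg (fun T => erase T a) h
      · rw [disjoint_left]
        intro D hD hD'
        obtain ⟨D', _, rfl⟩ := mem_image.1 hD'
        exact ha ((mem_powersetCard.1 hD).1 (mem_insert_self _ _))

/-- The product which collects the blocks. -/
theorem tele {S : Type*} [CommRing S] (b r : ℕ) : ∀ (k : ℕ) (x : Fin (k + 1) → S),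
    (∀ g, x g ^ (b + r) * x g ^ r = 0) →
    (∏ g, x g ^ b) * ∏ g : Fin k, (x g.castSucc ^ r - x g.succ ^ r) =
      ∑ l : Fin (k + 1), (-1) ^ (k - (l : ℕ)) * ∏ g, x g ^ (if g = l then b else b + r) := by
  intro k
  induction k with
  | zero =>
    intro x _
    simp
  | succ k ih =>
    intro x hx
    have hx' : ∀ g, (fun g : Fin (k + 1) => x g.castSucc) g ^ (b + r) *
        (fun g : Fin (k + 1) => x g.castSucc) g ^ r = 0 := fun g => hx _
    have h1 := ih (fun g => x g.castSucc) hx'
    rw [Fin.prod_univ_castSucc (fun g => x g ^ b),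
      Fin.prod_univ_castSucc (fun g : Fin (k + 1) => x g.castSucc ^ r - x g.succ ^ r)]
    have h2 : ∏ g : Fin k, (x g.castSucc.castSucc ^ r - x g.castSucc.succ ^ r) =
        ∏ g : Fin k, (x g.castSucc.castSucc ^ r - x g.succ.castSucc ^ r) := by
      refine prod_congr rfl fun g _ => ?_
      rw [Fin.succ_castSucc]
    rw [h2]
    rw [Fin.sum_univ_castSucc]
    have h3 : ∀ l : Fin (k + 1), ∏ g : Fin (k + 2), x g ^ (if g = l.castSucc then b else b + r) =
        (∏ g : Fin (k + 1), x g.castSucc ^ (if g = l then b else b + r)) *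
          x (Fin.last (k + 1)) ^ (b + r) := by
      intro l
      rw [Fin.prod_univ_castSucc]
      congr 1
      · refine prod_congr rfl fun g _ => ?_
        simp [Fin.castSucc_inj]
      · rw [if_neg]
        exact (Fin.castSucc_lt_last l).ne'
    have h4 : ∏ g : Fin (k + 2), x g ^ (if g = Fin.last (k + 1) then b else b + r) =
        (∏ g : Fin (k + 1), x g.castSucc ^ (b + r)) * x (Fin.last (k + 1)) ^ b := by
      rw [Fin.prod_univ_castSucc]
      congr 1
      · refine prod_congr rfl fun g _ => ?_
        rw [if_neg (Fin.castSucc_lt_last g).ne]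
      · rw [if_pos rfl]
    have h5 : ∀ l : Fin (k + 1), (-1 : S) ^ (k - (l : ℕ)) *
        (∏ g : Fin (k + 1), x g.castSucc ^ (if g = l then b else b + r)) *
          x (Fin.last k).castSucc ^ r =
        if l = Fin.last k then ∏ g : Fin (k + 1), x g.castSucc ^ (b + r) else 0 := by
      intro l
      split_ifs with h
      · subst h
        rw [Fin.val_last, Nat.sub_self, pow_zero, one_mul,
          ← mul_prod_erase univ _ (mem_univ (Fin.last k)),
          ← mul_prod_erase univ (fun g : Fin (k + 1) => x g.castSucc ^ (b + r))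
            (mem_univ (Fin.last k)), if_pos rfl, pow_add]
        have : ∏ g ∈ univ.erase (Fin.last k),
            x g.castSucc ^ (if g = Fin.last k then b else b + r) =
            ∏ g ∈ univ.erase (Fin.last k), x g.castSucc ^ (b + r) := by
          refine prod_congr rfl fun g hg => ?_
          rw [if_neg (ne_of_mem_erase hg)]
        rw [this]
        ring
      · rw [← mul_prod_erase univ _ (mem_univ (Fin.last k)), if_neg (Ne.symm h)]
        have := hx (Fin.last k).castSucc
        linear_combination (-1 : S) ^ (k - (l : ℕ)) * (∏ g ∈ univ.erase (Fin.last k),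
            x g.castSucc ^ (if g = l then b else b + r)) * this
    have h6 : (∑ l : Fin (k + 1), (-1 : S) ^ (k - (l : ℕ)) *
        ∏ g : Fin (k + 1), x g.castSucc ^ (if g = l then b else b + r)) *
          x (Fin.last k).castSucc ^ r = ∏ g : Fin (k + 1), x g.castSucc ^ (b + r) := by
      rw [sum_mul, sum_congr rfl (fun l _ => h5 l)]
      simp
    have h7 : ∑ l : Fin (k + 1), (-1 : S) ^ (k + 1 - ((l.castSucc : Fin (k + 2)) : ℕ)) *
        ∏ g : Fin (k + 2), x g ^ (if g = l.castSucc then b else b + r) =
        - (∑ l : Fin (k + 1), (-1 : S) ^ (k - (l : ℕ)) *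
        ∏ g : Fin (k + 1), x g.castSucc ^ (if g = l then b else b + r)) *
          x (Fin.last (k + 1)) ^ (b + r) := by
      rw [neg_mul, sum_mul, ← sum_neg_distrib]
      refine sum_congr rfl fun l _ => ?_
      rw [h3 l, Fin.val_castSucc]
      have : k + 1 - (l : ℕ) = (k - (l : ℕ)) + 1 := by
        have := l.2
        omega
      rw [this, pow_succ]
      ring
    rw [h7, h4, Fin.val_last, Nat.sub_self, pow_zero, one_mul, ← h6, ← h1, Fin.succ_last, pow_add]
    ring

end Pool.Agent.L5helper20.DG
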